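import Pool.Agent.H75.MT.Phi
import Pool.Agent.H95.CP.Grd

set_option autoImplicit false
set_option linter.unusedSectionVars false

/-! Restriction of trigonometric polynomials on the torus to the group `ZMod L × ZMod L`. -/

open Finset ComplexConjugate UnitAddTorus
open H95.CP (GG ch ch2 co2 fa gp gp2)
open Pool.Agent.H75

namespace H88.CT

noncomputable section

variable {L : ℕ} [NeZero L]

/-- the real point of the torus -/
def rpt (x : GG L) : Fin 2 → ℝ := ![(x.1.val : ℝ) / L, (x.2.val : ℝ) / L]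

/-- the point of the torus -/
def pt (x : GG L) : MT.T2 := fun i => ((rpt x i : ℝ) : UnitAddCircle)

/-- the frequency -/
def ck (L : ℕ) (k : Fin 2 → ℤ) : GG L := ((k 0 : ZMod L), (k 1 : ZMod L))

lemma ck_neg (k : Fin 2 → ℤ) : ck L (-k) = -ck L k := by
  unfold ck
  simp

lemma ch_int (m : ℤ) (t : ZMod L) : ch (m : ZMod L) t = MT.ee (m * ((t.val : ℝ) / L)) := by
  unfold H95.CP.ch MT.ee
  have h1 : (m : ZMod L) * t = ((m * (t.val : ℤ) : ℤ) : ZMod L) := by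
    push_cast
    rw [ZMod.natCast_zmod_val]
  rw [h1, ZMod.stdAddChar_coe]
  congr 1
  push_cast
  ring

lemma Ek_rpt (k : Fin 2 → ℤ) (x : GG L) : MT.Ek (rpt x) k = ch2 (ck L k) x := by
  unfold MT.Ek H95.CP.ch2 ck rpt
  simp only [Matrix.cons_val_zero, Matrix.cons_val_one]
  rw [ch_int, ch_int]

lemma mF_pt (k : Fin 2 → ℤ) (x : GG L) : mFourier k (pt x) = ch2 (ck L k) x := by
  unfold pt
  rw [MT.mF_coe, Ek_rpt]

lemma tp_pt (S : Finset (Fin 2 → ℤ)) (c : (Fin 2 → ℤ) → ℂ) (x : GG L) :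
    MT.tp S c (pt x) = ∑ k ∈ S, c k * ch2 (ck L k) x := by
  rw [MT.tp_apply]
  exact Finset.sum_congr rfl (fun k _ => by rw [mF_pt])

lemma co2_tp (S : Finset (Fin 2 → ℤ)) (c : (Fin 2 → ℤ) → ℂ) (l : GG L) :
    co2 (fun x => MT.tp S c (pt x)) l = ∑ k ∈ S, if ck L k = l then c k else 0 := by
  simp only [tp_pt]
  rw [H95.CP.co2_sum]
  refine Finset.sum_congr rfl (fun k _ => ?_)
  rw [H95.CP.co2_smul, H95.CP.co2_ch2]
  split_ifs <;> simp

lemma rp_pt (S : Finset (Fin 2 → ℤ)) (a : (Fin 2 → ℤ) → ℂ) (x : GG L) :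
    MT.rp S a (pt x) = ∑ k ∈ S, (1 / 2 * a k * ch2 (ck L k) x
      + 1 / 2 * conj (a k) * ch2 (-ck L k) x) := by
  unfold MT.rp
  rw [ContinuousMap.coe_sum, Finset.sum_apply]
  refine Finset.sum_congr rfl (fun k _ => ?_)
  rw [ContinuousMap.add_apply, ContinuousMap.smul_apply, ContinuousMap.smul_apply, smul_eq_mul,
    smul_eq_mul, mF_pt, mF_pt, ck_neg]

lemma co2_rp (S : Finset (Fin 2 → ℤ)) (a : (Fin 2 → ℤ) → ℂ) (l : GG L) :
    co2 (fun x => MT.rp S a (pt x)) l = ∑ k ∈ S, (1 / 2 * (if ck L k = l then a k else 0)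
      + 1 / 2 * (if -ck L k = l then conj (a k) else 0)) := by
  simp only [rp_pt]
  rw [H95.CP.co2_sum]
  refine Finset.sum_congr rfl (fun k _ => ?_)
  rw [H95.CP.co2_add, H95.CP.co2_smul, H95.CP.co2_smul, H95.CP.co2_ch2, H95.CP.co2_ch2]
  congr 1
  · split_ifs <;> simp
  · split_ifs <;> simp

/-- the absolute value of a frequency -/
lemma fa_int (m : ℤ) (hm : 2 * m.natAbs < L) : fa (m : ZMod L) = m.natAbs := by
  unfold H95.CP.fa
  have h1 : (m : ZMod L).valMinAbs = m := by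
    rw [ZMod.valMinAbs_spec]
    refine ⟨rfl, ?_⟩
    rw [Set.mem_Ioc]
    omega
  rw [h1]

lemma int_inj (m n : ℤ) (hm : 2 * m.natAbs < L) (hn : 2 * n.natAbs < L)
    (h : (m : ZMod L) = (n : ZMod L)) : m = n := by
  have h1 : (m : ZMod L).valMinAbs = m := by
    rw [ZMod.valMinAbs_spec]
    refine ⟨rfl, ?_⟩
    rw [Set.mem_Ioc]
    omega
  have h2 : (n : ZMod L).valMinAbs = n := by
    rw [ZMod.valMinAbs_spec]
    refine ⟨rfl, ?_⟩
    rw [Set.mem_Ioc]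
    omega
  rw [← h1, ← h2, h]

lemma ck_inj (k l : Fin 2 → ℤ) (hk : ∀ i, 2 * (k i).natAbs < L) (hl : ∀ i, 2 * (l i).natAbs < L)
    (h : ck L k = ck L l) : k = l := by
  unfold ck at h
  rw [Prod.mk.injEq] at h
  have h0 := int_inj (k 0) (l 0) (hk 0) (hl 0) h.1
  have h1 := int_inj (k 1) (l 1) (hk 1) (hl 1) h.2
  funext i
  fin_cases i
  · exact h0
  · exact h1

lemma mem_RB {K b : ℕ} {k : Fin 2 → ℤ} : k ∈ MT.RB K b ↔
    ((8 ^ (b + 1) : ℤ) ≤ k 0 ∧ k 0 < 2 * 8 ^ (b + 1)) ∧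
      ((8 ^ (K - b + 1) : ℤ) ≤ k 1 ∧ k 1 < 2 * 8 ^ (K - b + 1)) := by
  unfold MT.RB MT.Rm MT.Zf MT.Zs
  rw [MT.mem_bx]
  push_cast
  have e1 : (2 * (4 * 8 ^ b) : ℤ) = 8 ^ (b + 1) := by ring
  have e2 : (4 * (4 * 8 ^ b) : ℤ) = 2 * 8 ^ (b + 1) := by ring
  have e3 : (2 * (4 * 8 ^ (K - b)) : ℤ) = 8 ^ (K - b + 1) := by ring
  have e4 : (4 * (4 * 8 ^ (K - b)) : ℤ) = 2 * 8 ^ (K - b + 1) := by ring
  rw [e1, e2, e3, e4]

lemma RB_abs {K b : ℕ} {k : Fin 2 → ℤ} (hk : k ∈ MT.RB K b) :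
    (8 ^ (b + 1) ≤ (k 0).natAbs ∧ (k 0).natAbs < 2 * 8 ^ (b + 1)) ∧
      (8 ^ (K - b + 1) ≤ (k 1).natAbs ∧ (k 1).natAbs < 2 * 8 ^ (K - b + 1)) := by
  rw [mem_RB] at hk
  obtain ⟨⟨h1, h2⟩, h3, h4⟩ := hk
  have p1 : (0 : ℤ) < 8 ^ (b + 1) := by positivity
  have p2 : (0 : ℤ) < 8 ^ (K - b + 1) := by positivity
  have e0 : (((k 0).natAbs : ℕ) : ℤ) = k 0 := Int.natAbs_of_nonneg (by linarith)
  have e1 : (((k 1).natAbs : ℕ) : ℤ) = k 1 := Int.natAbs_of_nonneg (by linarith)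
  refine ⟨⟨?_, ?_⟩, ?_, ?_⟩
  · zify
    rw [abs_of_nonneg (by linarith)]
    exact h1
  · zify
    rw [abs_of_nonneg (by linarith)]
    exact h2
  · zify
    rw [abs_of_nonneg (by linarith)]
    exact h3
  · zify
    rw [abs_of_nonneg (by linarith)]
    exact h4

lemma pow_le_L {K : ℕ} (hL : 8 ^ (K + 2) ∣ L) {b : ℕ} (hb : b ≤ K) : 8 * 8 ^ (b + 1) ≤ L := by
  have h1 := Nat.le_of_dvd (NeZero.pos L) hL
  have h2 : 8 * 8 ^ (b + 1) ≤ 8 ^ (K + 2) := by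
    rw [← pow_succ']
    exact Nat.pow_le_pow_right (by norm_num) (by omega)
  exact h2.trans h1

lemma RB_small {K b : ℕ} (hL : 8 ^ (K + 2) ∣ L) (hb : b ≤ K) {k : Fin 2 → ℤ}
    (hk : k ∈ MT.RB K b) (i : Fin 2) : 2 * (k i).natAbs < L := by
  have h1 := RB_abs hk
  have h2 := pow_le_L hL hb
  have h3 := pow_le_L hL (Nat.sub_le K b)
  have p1 : 0 < 8 ^ (b + 1) := by positivity
  have p2 : 0 < 8 ^ (K - b + 1) := by positivity
  fin_cases i
  · show 2 * (k 0).natAbs < L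
    omega
  · show 2 * (k 1).natAbs < L
    omega

/-- a block of the extremal polynomial on the group -/
def bl (L : ℕ) (K : ℕ) (ε : ℕ → Finset (MT.YK K)) (b : ℕ) (x : GG L) : ℝ :=
  (MT.rp (MT.RB K b) (MT.aa K ε b) (pt x)).re

/-- the extremal polynomial on the group -/
def Tx (L : ℕ) (K : ℕ) (ε : ℕ → Finset (MT.YK K)) (x : GG L) : ℝ :=
  ∑ b ∈ range (K + 1), bl L K ε b x

lemma bl_coe (K : ℕ) (ε : ℕ → Finset (MT.YK K)) (b : ℕ) (x : GG L) :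
    ((bl L K ε b x : ℝ) : ℂ) = MT.rp (MT.RB K b) (MT.aa K ε b) (pt x) := by
  unfold bl
  rw [MT.rp_apply, Complex.ofReal_re]

lemma TT_pt (K : ℕ) (ε : ℕ → Finset (MT.YK K)) (x : GG L) :
    MT.TT K (K + 1) (MT.aa K ε) (pt x) = ((Tx L K ε x : ℝ) : ℂ) := by
  unfold MT.TT Tx
  rw [ContinuousMap.coe_sum, Finset.sum_apply, Complex.ofReal_sum]
  exact Finset.sum_congr rfl (fun b _ => (bl_coe K ε b x).symm)

lemma co2_Tx (K : ℕ) (ε : ℕ → Finset (MT.YK K)) (l : GG L) :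
    co2 (fun x => ((Tx L K ε x : ℝ) : ℂ)) l
      = ∑ b ∈ range (K + 1), co2 (fun x => ((bl L K ε b x : ℝ) : ℂ)) l := by
  rw [← H95.CP.co2_sum]
  congr 1
  funext x
  unfold Tx
  rw [Complex.ofReal_sum]

lemma co2_bl_eq (K : ℕ) (ε : ℕ → Finset (MT.YK K)) (b : ℕ) (l : GG L) :
    co2 (fun x => ((bl L K ε b x : ℝ) : ℂ)) l
      = ∑ k ∈ MT.RB K b, (1 / 2 * (if ck L k = l then MT.aa K ε b k else 0)
      + 1 / 2 * (if -ck L k = l then conj (MT.aa K ε b k) else 0)) := by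
  simp only [bl_coe]
  exact co2_rp _ _ _

/-- the spectrum of a block -/
lemma co2_bl_ne {K : ℕ} (ε : ℕ → Finset (MT.YK K)) (b : ℕ) (l : GG L)
    (h : co2 (fun x => ((bl L K ε b x : ℝ) : ℂ)) l ≠ 0) :
    ∃ k ∈ MT.RB K b, l = ck L k ∨ l = -ck L k := by
  rw [co2_bl_eq] at h
  obtain ⟨k, hk, hne⟩ := Finset.exists_ne_zero_of_sum_ne_zero h
  refine ⟨k, hk, ?_⟩
  by_contra hcon
  push Not at hcon
  apply hne
  rw [if_neg (fun h => hcon.1 h.symm), if_neg (fun h => hcon.2 h.symm), mul_zero, add_zero]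

lemma co2_bl_spec {K : ℕ} (hL : 8 ^ (K + 2) ∣ L) (ε : ℕ → Finset (MT.YK K)) (b : ℕ) (hb : b ≤ K)
    (l : GG L) (h : co2 (fun x => ((bl L K ε b x : ℝ) : ℂ)) l ≠ 0) :
    (8 ^ (b + 1) ≤ fa l.1 ∧ fa l.1 < 2 * 8 ^ (b + 1)) ∧
      (8 ^ (K - b + 1) ≤ fa l.2 ∧ fa l.2 < 2 * 8 ^ (K - b + 1)) := by
  obtain ⟨k, hk, hl⟩ := co2_bl_ne ε b l h
  have h0 := fa_int (L := L) (k 0) (RB_small hL hb hk 0)
  have h1 := fa_int (L := L) (k 1) (RB_small hL hb hk 1)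
  have h2 := RB_abs hk
  have e0 : fa l.1 = (k 0).natAbs := by
    rcases hl with rfl | rfl
    · exact h0
    · show fa (-(k 0 : ZMod L)) = _
      rw [H95.CP.fa_neg]
      exact h0
  have e1 : fa l.2 = (k 1).natAbs := by
    rcases hl with rfl | rfl
    · exact h1
    · show fa (-(k 1 : ZMod L)) = _
      rw [H95.CP.fa_neg]
      exact h1
  rw [e0, e1]
  exact h2

/-- the coefficients of a block -/
lemma co2_bl {K : ℕ} (hL : 8 ^ (K + 2) ∣ L) (ε : ℕ → Finset (MT.YK K)) (b : ℕ) (hb : b ≤ K)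
    (k : Fin 2 → ℤ) (hk : k ∈ MT.RB K b) :
    co2 (fun x => ((bl L K ε b x : ℝ) : ℂ)) (ck L k) = 1 / 2 * MT.aa K ε b k := by
  rw [co2_bl_eq]
  rw [Finset.sum_eq_single k]
  · rw [if_pos rfl, if_neg, mul_zero, add_zero]
    rw [← ck_neg]
    intro h
    have h2 := ck_inj (-k) k (fun i => by
      rw [Pi.neg_apply, Int.natAbs_neg]
      exact RB_small hL hb hk i) (RB_small hL hb hk) h
    have h3 := congrFun h2 0
    rw [Pi.neg_apply] at h3
    rw [mem_RB] at hk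
    have p1 : (0 : ℤ) < 8 ^ (b + 1) := by positivity
    linarith [hk.1.1]
  · intro k' hk' hne
    rw [if_neg, if_neg, mul_zero, add_zero]
    · rw [← ck_neg]
      intro h
      have h2 := ck_inj (-k') k (fun i => by
        rw [Pi.neg_apply, Int.natAbs_neg]
        exact RB_small hL hb hk' i) (RB_small hL hb hk) h
      have h3 := congrFun h2 0
      rw [Pi.neg_apply] at h3
      rw [mem_RB] at hk hk'
      have p1 : (0 : ℤ) < 8 ^ (b + 1) := by positivity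
      linarith [hk.1.1, hk'.1.1]
    · intro h
      exact hne (ck_inj k' k (RB_small hL hb hk') (RB_small hL hb hk) h)
  · intro h
    exact absurd hk h

section Grid

variable {K : ℕ}

/-- the points of the grid of block `b` -/
def bpt (L : ℕ) (K b : ℕ) (hb : b ≤ K) (y : MT.YK K) : GG L :=
  gp2 (2 * MT.Zf b) (2 * MT.Zs K b) (MT.eb K b hb y)

lemma val_gp {A : ℕ} (hA : A ∣ L) (i : Fin A) : ((gp A i : ZMod L).val : ℝ) / L = (i : ℝ) / A := by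
  have hL := NeZero.pos L
  obtain ⟨c, hc⟩ := hA
  have hA0 : 0 < A := Nat.pos_of_ne_zero (by rintro rfl; exact i.elim0)
  have hc0 : 0 < c := Nat.pos_of_ne_zero (by rintro rfl; omega)
  have h1 : L / A = c := by
    rw [hc]
    exact Nat.mul_div_cancel_left c hA0
  unfold H95.CP.gp
  rw [h1, ZMod.val_natCast, Nat.mod_eq_of_lt]
  · rw [hc]
    push_cast
    have a1 : (A : ℝ) ≠ 0 := by exact_mod_cast hA0.ne'
    have a2 : (c : ℝ) ≠ 0 := by exact_mod_cast hc0.ne'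
    field_simp
  · rw [hc, mul_comm A c]
    exact Nat.mul_lt_mul_of_pos_left i.2 hc0

lemma dvd_Zf (hL : 8 ^ (K + 2) ∣ L) {b : ℕ} (hb : b ≤ K) : 2 * MT.Zf b ∣ L := by
  refine Dvd.dvd.trans ?_ hL
  have h1 : 2 * MT.Zf b = 8 ^ (b + 1) := by
    unfold MT.Zf
    ring
  rw [h1]
  exact pow_dvd_pow 8 (by omega)

lemma dvd_Zs (hL : 8 ^ (K + 2) ∣ L) (b : ℕ) : 2 * MT.Zs K b ∣ L := by
  refine Dvd.dvd.trans ?_ hL
  have h1 : 2 * MT.Zs K b = 8 ^ (K - b + 1) := by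
    unfold MT.Zs
    ring
  rw [h1]
  exact pow_dvd_pow 8 (by omega)

lemma rpt_bpt (hL : 8 ^ (K + 2) ∣ L) (b : ℕ) (hb : b ≤ K) (y : MT.YK K) :
    rpt (bpt L K b hb y) = MT.gp (MT.Zf b) (MT.Zs K b) (MT.eb K b hb) y := by
  unfold rpt bpt H95.CP.gp2 MT.gp
  simp only
  rw [val_gp (dvd_Zf hL hb), val_gp (dvd_Zs hL b)]

lemma ch2_bpt (hL : 8 ^ (K + 2) ∣ L) (b : ℕ) (hb : b ≤ K) (y : MT.YK K) (k : Fin 2 → ℤ) :
    ch2 (ck L k) (bpt L K b hb y) = MT.chi (MT.Zf b) (MT.Zs K b) (MT.eb K b hb) k y := by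
  unfold MT.chi
  rw [← rpt_bpt hL b hb y, Ek_rpt]

lemma hat_inv {Y : Type*} [Fintype Y] [DecidableEq Y] (Z Z' : ℕ)
    (e : Y ≃ Fin (2 * Z) × Fin (2 * Z')) (hZ : 0 < Z) (hZ' : 0 < Z') (h : Y → ℝ) (y : Y) :
    ∑ k ∈ MT.Rm Z Z', MT.hat Z Z' e h k * MT.chi Z Z' e k y = h y := by
  have h1 : ∀ k, MT.hat Z Z' e h k * MT.chi Z Z' e k y
      = (1 / ((2 * Z : ℕ) * (2 * Z' : ℕ) : ℝ) : ℝ)
        * ∑ y', (h y' : ℂ) * (MT.chi Z Z' e k y * conj (MT.chi Z Z' e k y')) := by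
    intro k
    unfold MT.hat
    rw [mul_assoc, Finset.sum_mul]
    congr 1
    refine Finset.sum_congr rfl (fun y' _ => ?_)
    ring
  rw [Finset.sum_congr rfl (fun k _ => h1 k), ← Finset.mul_sum, Finset.sum_comm]
  have h2 : ∀ y', ∑ k ∈ MT.Rm Z Z', (h y' : ℂ) * (MT.chi Z Z' e k y * conj (MT.chi Z Z' e k y'))
      = if y = y' then (h y : ℂ) * (((2 * Z : ℕ) * (2 * Z' : ℕ) : ℝ) : ℂ) else 0 := by
    intro y'
    rw [← Finset.mul_sum, MT.chi_dual Z Z' e hZ hZ' y y']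
    split_ifs with h
    · rw [h]
    · rw [mul_zero]
  simp only [h2]
  rw [Finset.sum_ite_eq Finset.univ y]
  simp only [Finset.mem_univ, if_true]
  have a1 : (Z : ℂ) ≠ 0 := by exact_mod_cast hZ.ne'
  have a2 : (Z' : ℂ) ≠ 0 := by exact_mod_cast hZ'.ne'
  push_cast
  field_simp

/-- the values of a block on its grid -/
lemma bl_bpt (hL : 8 ^ (K + 2) ∣ L) (ε : ℕ → Finset (MT.YK K)) (b : ℕ) (hb : b ≤ K)
    (y : MT.YK K) : bl L K ε b (bpt L K b hb y) = MT.sg (ε b) y := by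
  unfold bl
  rw [MT.rp_apply, Complex.ofReal_re, ← Complex.re_sum]
  have h1 : ∀ k ∈ MT.RB K b, MT.aa K ε b k * mFourier k (pt (bpt L K b hb y))
      = MT.hat (MT.Zf b) (MT.Zs K b) (MT.eb K b hb) (MT.sg (ε b)) k
        * MT.chi (MT.Zf b) (MT.Zs K b) (MT.eb K b hb) k y := by
    intro k _
    rw [mF_pt, ch2_bpt hL b hb y k]
    unfold MT.aa
    rw [dif_pos hb]
  rw [Finset.sum_congr rfl h1]
  unfold MT.RB
  rw [hat_inv _ _ _ (MT.Zf_pos b) (MT.Zs_pos K b), Complex.ofReal_re]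

end Grid

section Sums

variable {K : ℕ}

/-- coefficients of the whole polynomial -/
lemma co2_Tx_RB (hL : 8 ^ (K + 2) ∣ L) (ε : ℕ → Finset (MT.YK K)) (b : ℕ) (hb : b ≤ K)
    (k : Fin 2 → ℤ) (hk : k ∈ MT.RB K b) :
    co2 (fun x => ((Tx L K ε x : ℝ) : ℂ)) (ck L k) = 1 / 2 * MT.aa K ε b k := by
  rw [co2_Tx, Finset.sum_eq_single b, co2_bl hL ε b hb k hk]
  · intro b' hb' hne
    rw [mem_range] at hb'
    by_contra hc
    have h1 := co2_bl_spec hL ε b' (by omega) _ hc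
    have h2 := RB_abs hk
    have e0 : fa (ck L k).1 = (k 0).natAbs := fa_int (L := L) (k 0) (RB_small hL hb hk 0)
    rw [e0] at h1
    have p1 : 0 < 8 ^ (b' + 1) := by positivity
    have p2 : 0 < 8 ^ (b + 1) := by positivity
    rcases lt_or_gt_of_ne hne with h | h
    · have h3 : 8 * 8 ^ (b' + 1) ≤ 8 ^ (b + 1) := by
        rw [← pow_succ']
        exact Nat.pow_le_pow_right (by norm_num) (by omega)
      omega
    · have h3 : 8 * 8 ^ (b + 1) ≤ 8 ^ (b' + 1) := by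
        rw [← pow_succ']
        exact Nat.pow_le_pow_right (by norm_num) (by omega)
      omega
  · intro h
    exact absurd (mem_range.2 (by omega)) h

/-- the spectrum of the whole polynomial -/
lemma co2_Tx_ne (hL : 8 ^ (K + 2) ∣ L) (ε : ℕ → Finset (MT.YK K)) (l : GG L)
    (h : co2 (fun x => ((Tx L K ε x : ℝ) : ℂ)) l ≠ 0) :
    ∃ b ≤ K, co2 (fun x => ((bl L K ε b x : ℝ) : ℂ)) l ≠ 0 ∧
      (8 ^ (b + 1) ≤ fa l.1 ∧ fa l.1 < 2 * 8 ^ (b + 1)) ∧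
      (8 ^ (K - b + 1) ≤ fa l.2 ∧ fa l.2 < 2 * 8 ^ (K - b + 1)) := by
  rw [co2_Tx] at h
  obtain ⟨b, hb, hne⟩ := Finset.exists_ne_zero_of_sum_ne_zero h
  rw [mem_range] at hb
  exact ⟨b, by omega, hne, co2_bl_spec hL ε b (by omega) l hne⟩

lemma norm_co2_rp_le (S : Finset (Fin 2 → ℤ)) (hS : ∀ k ∈ S, ∀ i, 2 * (k i).natAbs < L)
    (hS2 : ∀ k ∈ S, 0 < k 0) (a : (Fin 2 → ℤ) → ℂ) :
    ∑ l : GG L, ‖co2 (fun x => MT.rp S a (pt x)) l‖ ^ 2 = 1 / 2 * ∑ k ∈ S, ‖a k‖ ^ 2 := by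
  classical
  have hinj : Set.InjOn (ck L) (S : Set (Fin 2 → ℤ)) := by
    intro k hk k' hk' h
    exact ck_inj k k' (hS k hk) (hS k' hk') h
  have hinj' : Set.InjOn (fun k => -ck L k) (S : Set (Fin 2 → ℤ)) := by
    intro k hk k' hk' h
    exact hinj hk hk' (neg_injective h)
  have hne : ∀ k ∈ S, ∀ k' ∈ S, ck L k ≠ -ck L k' := by
    intro k hk k' hk' h
    rw [← ck_neg] at h
    have h2 := ck_inj k (-k') (hS k hk) (fun i => by
      rw [Pi.neg_apply, Int.natAbs_neg]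
      exact hS k' hk' i) h
    have h3 := congrFun h2 0
    rw [Pi.neg_apply] at h3
    have h4 := hS2 k hk
    have h5 := hS2 k' hk'
    omega
  have hdisj : Disjoint (S.image (ck L)) (S.image (fun k => -ck L k)) := by
    rw [Finset.disjoint_left]
    intro l hl hl'
    rw [mem_image] at hl hl'
    obtain ⟨k, hk, rfl⟩ := hl
    obtain ⟨k', hk', h⟩ := hl'
    exact hne k hk k' hk' h.symm
  have hval1 : ∀ k ∈ S, co2 (fun x => MT.rp S a (pt x)) (ck L k) = 1 / 2 * a k := by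
    intro k hk
    rw [co2_rp, Finset.sum_eq_single k]
    · rw [if_pos rfl, if_neg (fun h => hne k hk k hk h.symm), mul_zero, add_zero]
    · intro k' hk' hkk
      rw [if_neg (fun h => hkk (hinj hk' hk h)), if_neg (fun h => hne k hk k' hk' h.symm),
        mul_zero, add_zero]
    · intro h
      exact absurd hk h
  have hval2 : ∀ k ∈ S, co2 (fun x => MT.rp S a (pt x)) (-ck L k) = 1 / 2 * conj (a k) := by
    intro k hk
    rw [co2_rp, Finset.sum_eq_single k]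
    · rw [if_pos rfl, if_neg (fun h => hne k hk k hk h), mul_zero, zero_add]
    · intro k' hk' hkk
      rw [if_neg (fun h => hne k' hk' k hk h), if_neg (fun h => hkk (hinj' hk' hk h)),
        mul_zero, add_zero]
    · intro h
      exact absurd hk h
  have hzero : ∀ l : GG L, l ∉ S.image (ck L) ∪ S.image (fun k => -ck L k) →
      ‖co2 (fun x => MT.rp S a (pt x)) l‖ ^ 2 = 0 := by
    intro l hl
    rw [mem_union, not_or, mem_image, mem_image] at hl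
    rw [co2_rp, Finset.sum_eq_zero]
    · simp
    · intro k hk
      rw [if_neg (fun h => hl.1 ⟨k, hk, h⟩), if_neg (fun h => hl.2 ⟨k, hk, h⟩), mul_zero, add_zero]
  rw [← Finset.sum_subset (Finset.subset_univ (S.image (ck L) ∪ S.image (fun k => -ck L k)))
    (fun l _ hl => hzero l hl), Finset.sum_union hdisj, Finset.sum_image hinj,
    Finset.sum_image hinj']
  have e1 : ∑ k ∈ S, ‖co2 (fun x => MT.rp S a (pt x)) (ck L k)‖ ^ 2
      = ∑ k ∈ S, 1 / 4 * ‖a k‖ ^ 2 := by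
    refine Finset.sum_congr rfl (fun k hk => ?_)
    rw [hval1 k hk, norm_mul, mul_pow]
    norm_num
  have e2 : ∑ k ∈ S, ‖co2 (fun x => MT.rp S a (pt x)) (-ck L k)‖ ^ 2
      = ∑ k ∈ S, 1 / 4 * ‖a k‖ ^ 2 := by
    refine Finset.sum_congr rfl (fun k hk => ?_)
    rw [hval2 k hk, norm_mul, mul_pow, RCLike.norm_conj]
    norm_num
  rw [e1, e2, ← Finset.mul_sum]
  ring

/-- the energy of a block -/
lemma sum_co2_bl (hL : 8 ^ (K + 2) ∣ L) (ε : ℕ → Finset (MT.YK K)) (b : ℕ) (hb : b ≤ K) :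
    ∑ l : GG L, ‖co2 (fun x => ((bl L K ε b x : ℝ) : ℂ)) l‖ ^ 2 ≤ 1 / 2 := by
  simp only [bl_coe]
  rw [norm_co2_rp_le _ (fun k hk i => RB_small hL hb hk i)]
  · have := MT.aa_sq K ε b
    linarith
  · intro k hk
    rw [mem_RB] at hk
    have p1 : (0 : ℤ) < 8 ^ (b + 1) := by positivity
    linarith [hk.1.1]

lemma ER_bl_sq (hL : 8 ^ (K + 2) ∣ L) (ε : ℕ → Finset (MT.YK K)) (b : ℕ) (hb : b ≤ K) :
    H95.CP.ER (fun x : GG L => (bl L K ε b x) ^ 2) ≤ 1 / 2 := by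
  have h1 := H95.CP.parseval (fun x : GG L => ((bl L K ε b x : ℝ) : ℂ))
  simp only [Complex.norm_real, Real.norm_eq_abs, sq_abs] at h1
  rw [h1]
  exact sum_co2_bl hL ε b hb

/-- the remainder on the group -/
lemma norm_sub_pt (ε : ℕ → Finset (MT.YK K)) (S : Finset (Fin 2 → ℤ)) (d : (Fin 2 → ℤ) → ℂ)
    (U : ℝ) (hU : ∀ x, ‖(MT.TT K (K + 1) (MT.aa K ε) - MT.tp S d) x‖ ≤ U) (x : GG L) :
    ‖((Tx L K ε x : ℝ) : ℂ) - MT.tp S d (pt x)‖ ≤ U := by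
  have h1 := hU (pt x)
  rw [ContinuousMap.sub_apply, TT_pt] at h1
  exact h1

/-- a sparse polynomial stays sparse on the group -/
lemma card_spec_tp (S : Finset (Fin 2 → ℤ)) (d : (Fin 2 → ℤ) → ℂ) :
    ∃ Λ : Finset (GG L), #Λ ≤ #S ∧ ∀ l, co2 (fun x => MT.tp S d (pt x)) l ≠ 0 → l ∈ Λ := by
  classical
  refine ⟨S.image (ck L), Finset.card_image_le, fun l hl => ?_⟩
  rw [co2_tp] at hl
  obtain ⟨k, hk, hne⟩ := Finset.exists_ne_zero_of_sum_ne_zero hl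
  rw [mem_image]
  refine ⟨k, hk, ?_⟩
  by_contra hcon
  exact hne (if_neg hcon)

/-- values on the grid of all blocks: the pairing of a block with the signs -/
lemma sum_bl_bpt (hL : 8 ^ (K + 2) ∣ L) (ε : ℕ → Finset (MT.YK K)) (b : ℕ) (hb : b ≤ K) :
    ∑ y, bl L K ε b (bpt L K b hb y) * MT.sg (ε b) y = (8 : ℝ) ^ (K + 2) := by
  have h1 : ∀ y, bl L K ε b (bpt L K b hb y) * MT.sg (ε b) y = 1 := by
    intro y
    rw [bl_bpt hL ε b hb y]
    unfold MT.sg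
    split_ifs <;> norm_num
  simp only [h1, Finset.sum_const, Finset.card_univ, Fintype.card_fin, nsmul_eq_mul, mul_one]
  push_cast
  rfl

end Sums

end

end H88.CT
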